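import Pool.Agent.PFS.StmtsH
import Pool.Agent.Helper37_PFS.Stmts2

/-!
# PFB squad (MP_e54c4c_gt, product faces), SECTION G: the periodic simplex

Input: a closed invariant family `T` of boxes (`BFam`) whose subspaces form a discrete family (`Dsc`).
Output: a box in `T` preserved by a subgroup of `Γ` isomorphic to `ℤ^(K+1)`.

Conventions as in PFS: `x ≤ y` means `y - x ∈ closure C`; zooming = row ZOM of PFS; the scaled maps
`G = s • act g` preserve `C`, `closure C`, `Hull`, `LamC`.  A box is a properly embedded simplex `w`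
with vertices `w 0, w 1, w 2, ..., w (K+1)`; `F = Face C (w 0 + w 1)` is the open face of the first
edge, of dimension `d ≥ 3`, strictly convex; the other vertices `w j.succ.succ`, `j : Fin K`, are
called apexes.
-/

set_option autoImplicit false

open Matrix Filter Topology

namespace Pool.Agent.PFB

open Pool.Agent.PFS

/-- the open face of the edge `0 1` -/
abbrev EF {n K : ℕ} (C : Set (V n)) (w : Fin (K + 2) → V n) : Set (V n) := Face C (w 0 + w 1)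

/-- the subspace of the box: spanned by the face of the first edge and the other vertices -/
def BW {n K : ℕ} (C : Set (V n)) (w : Fin (K + 2) → V n) : Submodule ℝ (V n) :=
  Submodule.span ℝ (Face C (w 0 + w 1)) ⊔
    Submodule.span ℝ (Set.range fun j : Fin K => w j.succ.succ)

/-- the simplex with first edge `y1 y2` and the rescaled apexes of `w` -/
def chd {n K : ℕ} (y1 y2 : V n) (c : Fin K → ℝ) (w : Fin (K + 2) → V n) : Fin (K + 2) → V n :=
  Fin.cons y1 (Fin.cons y2 fun j => c j • w j.succ.succ)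

/-- closed `Γ`-invariant families of boxes -/
structure BFam {n : ℕ} (C : Set (V n)) (Γ : Subgroup (GL (Fin n) ℝ)) (K d : ℕ)
    (T : (Fin (K + 2) → V n) → Prop) : Prop where
  three : 3 ≤ d
  pes : ∀ w, T w → IsPES C Γ w
  dim : ∀ w, T w → Module.finrank ℝ (Submodule.span ℝ (EF C w)) = d
  strict : ∀ w, T w → ∀ y1 ∈ closure (EF C w), ∀ y2 ∈ closure (EF C w),
    LinearIndependent ℝ ![y1, y2] → y1 + y2 ∈ EF C w
  sec : ∀ w, T w → ∀ x ∈ closure C, x ∈ BW C w → ∃ f ∈ closure (EF C w), ∃ c : Fin K → ℝ,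
    (∀ j, 0 ≤ c j) ∧ x = f + ∑ j, c j • w j.succ.succ
  ind : ∀ w, T w → ∀ f ∈ Submodule.span ℝ (EF C w), ∀ c : Fin K → ℝ,
    f + ∑ j, c j • w j.succ.succ = 0 → f = 0 ∧ c = 0
  ext : ∀ w, T w → ∀ i, ∀ z ∈ closure C, ∀ β : ℝ, β • w i - z ∈ closure C →
    ∃ c : ℝ, 0 ≤ c ∧ z = c • w i
  extF : ∀ w, T w → ∀ y ∈ closure (EF C w), y ∉ EF C w → ∀ z ∈ closure C, ∀ β : ℝ,
    β • y - z ∈ closure C → ∃ c : ℝ, 0 ≤ c ∧ z = c • y
  act : ∀ w, T w → ∀ g ∈ Γ, ∀ s : ℝ, 0 < s → T (fun i => s • PFS.act g (w i))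
  chord : ∀ w, T w → ∀ y1 ∈ closure (EF C w), y1 ∉ EF C w → ∀ y2 ∈ closure (EF C w),
    y2 ∉ EF C w → LinearIndependent ℝ ![y1, y2] → ∀ c : Fin K → ℝ, (∀ j, 0 < c j) →
    T (chd y1 y2 c w)
  closed : ∀ (x : ℕ → Fin (K + 2) → V n) (w : Fin (K + 2) → V n), (∀ m, T (x m)) →
    (∀ i, Tendsto (fun m => x m i) atTop (𝓝 (w i))) → IsPES C Γ w → T w

/-- the subspaces of the boxes of the family form a discrete family -/
def Dsc {n : ℕ} (C : Set (V n)) (K : ℕ) (T : (Fin (K + 2) → V n) → Prop) : Prop :=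
  ∀ (x : ℕ → Fin (K + 2) → V n) (w : Fin (K + 2) → V n), (∀ m, T (x m)) → T w →
    (∀ i, Tendsto (fun m => x m i) atTop (𝓝 (w i))) → ∀ᶠ m in atTop, BW C (x m) = BW C w

/-- strict convexity of an open cone -/
def Strict {d : ℕ} (F : Set (V d)) : Prop :=
  ∀ y1 ∈ closure F, ∀ y2 ∈ closure F, LinearIndependent ℝ ![y1, y2] → y1 + y2 ∈ F

/-! ## G.1  Abstract cones -/

/-- **Row CTR** (contraction gives an eigenvector).  If the linear maps `L_m` preserve `closure F`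
and converge to the rank one map `x ↦ ψ(x) b`, `b ∈ closure F`, `ψ(b) > 0`, `ψ ≥ 0` on `closure F`,
then for large `m` they have eigenvectors `x_m → b` in `closure F`, with eigenvalues
`κ_m → ψ(b)`.

Proof.  There is a linear functional `ℓ` with `ℓ > 0` on `closure F ∖ {0}` (salient closed cone in
finite dimension: row FUN of PFS gives it for points of boundary; simplest: `PCone.normal` and
Hahn-Banach; or take `ℓ` = a functional strictly separating the compact convex hull of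
`{x ∈ closure F : ‖x‖ = 1}` from `0`; any proof is fine; `c‖x‖ ≤ ℓ(x)` on `closure F`), scaled so
that `ℓ(b) = 1`.  (Alternative without `ℓ`: use the norm `‖x‖` in the place of `ℓ`, the estimates
below hold with a Lipschitz function of degree one in the place of `ℓ`.)
Let `E_m = L_m - ψ(·) b`, `ε_m = ‖E_m‖ → 0` (pointwise convergence in finite dimension).
Let `S_ρ = {x ∈ closure F : ℓ(x) = 1, ‖x - b‖ ≤ ρ}`, complete, contains `b`;
`ρ` so small that `ψ(x) ≥ c := ψ(b)/2 > 0` on `S_ρ`.  `f_m(x) = L_m x / ℓ(L_m x)`;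
`ℓ(L_m x) = ψ(x) + ℓ(E_m x) ≥ c/2` for large `m`;
`f_m(x) - b = (E_m x - ℓ(E_m x) b) / ℓ(L_m x)`, of norm `≤ const ε_m`, so `f_m` maps `S_ρ` to itself
for large `m`.  `f_m(x) - f_m(y)` has numerator
`ψ(x) ℓ(E y) b - ψ(y) ℓ(E x) b + ψ(y) E x - ψ(x) E y + ℓ(E y) E x - ℓ(E x) E y`, which is
`≤ const ε_m ‖x - y‖` (write `ψ(x) ℓ(Ey) - ψ(y) ℓ(Ex) = ψ(x) ℓ(E(y-x)) + (ψ(x) - ψ(y)) ℓ(Ex)` etc.),
and denominator `≥ c²/4`.  So `f_m` is a contraction for large `m`: fixed point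
(`ContractingWith.exists_fixedPoint` / `efixedPoint'`), `L_m x_m = κ_m x_m`,
`κ_m = ℓ(L_m x_m) → ψ(b)`, and `‖x_m - b‖ ≤ const ε_m → 0`.  (Put `x_m = b`, `κ_m = ψ(b)` for the
finitely many other `m`.) -/
def CtrStmt : Prop :=
  ∀ (d : ℕ) (F : Set (V d)), PCone F → ∀ (L : ℕ → (V d →ₗ[ℝ] V d)) (ψ : V d →ₗ[ℝ] ℝ) (b : V d),
    (∀ m, ∀ x ∈ closure F, L m x ∈ closure F) → b ∈ closure F → 0 < ψ b →
    (∀ x ∈ closure F, 0 ≤ ψ x) →
    (∀ x, Tendsto (fun m => L m x) atTop (𝓝 (ψ x • b))) →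
    ∃ (x : ℕ → V d) (κ : ℕ → ℝ), (∀ᶠ m in atTop, x m ∈ closure F ∧ L m (x m) = κ m • x m) ∧
      Tendsto x atTop (𝓝 b) ∧ Tendsto κ atTop (𝓝 (ψ b))

/-- **Row RKO** (rank one limits).  `F` strictly convex, `H_m` preserve `F`, `f ∈ F` and
`r_m H_m f → b`, `b ∈ closure F`, `b ∉ F`, `b ≠ 0`.  Then on a subsequence `r_m H_m x → ψ(x) b` for
all `x`, with a linear functional `ψ`, `ψ ≥ 0` on `closure F`, `ψ > 0` on `F`.

Proof.  Let `v ∈ V d`; `PCone.absorb`: `-M f ≤ v ≤ M f` (order of `F`), so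
`-M r_m H_m f ≤ r_m H_m v ≤ M r_m H_m f`, and `PCone.normal` applied to
`0 ≤ r_m H_m v + M r_m H_m f ≤ 2 M r_m H_m f` shows that `r_m H_m v` is bounded.  Apply this to the
basis vectors and take a subsequence such that `r_m H_m e_i` converges for all `i`; so
`r_m H_m x → A x` for all `x`, `A` linear.  `A f = b`.  If `x ∈ closure F`:
`A x ∈ closure F` and `x ≤ M f` gives `A x ≤ M b` for some `M > 0`.
Claim: `0 ≤ y ≤ M b` implies `y = c b`, `c ≥ 0`: otherwise `y` and `M b - y` are linearly independent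
elements of `closure F` (if they were dependent then `y` would be proportional to `b`, with
nonnegative factor by salient) with sum `M b ∉ F`, contradicting `Strict`.  So `A x = c(x) b` on
`closure F`; every `x` is a difference of two elements of `F`
(`x = (x + M f) - M f`), so `A x ∈ ℝ b` for all `x`, and `ψ` = `A` followed by the coordinate of the
line `ℝ b` is linear.  `ψ(f) = 1`; `x ∈ F` has `x ≥ ε f`, so `ψ(x) ≥ ε > 0`. -/
def RkoStmt : Prop :=
  ∀ (d : ℕ) (F : Set (V d)), PCone F → Strict F → ∀ (H : ℕ → (V d ≃ₗ[ℝ] V d)) (r : ℕ → ℝ)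
    (f b : V d), (∀ m x, H m x ∈ F ↔ x ∈ F) → (∀ m, 0 < r m) → f ∈ F → b ∈ closure F → b ∉ F →
    b ≠ 0 → Tendsto (fun m => r m • H m f) atTop (𝓝 b) →
    ∃ (φ : ℕ → ℕ) (ψ : V d →ₗ[ℝ] ℝ), StrictMono φ ∧ (∀ x ∈ closure F, 0 ≤ ψ x) ∧
      (∀ x ∈ F, 0 < ψ x) ∧ ∀ x, Tendsto (fun m => r (φ m) • H (φ m) x) atTop (𝓝 (ψ x • b))

/-- **Row BIP** (biproximal elements).  `F` strictly convex, `H_m` preserve `F`, `f ∈ F`,
`r_m H_m f → b`, `s_m H_m⁻¹ f → a`, `a, b ∈ closure F ∖ F` linearly independent.  Then some `H_m` has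
two linearly independent eigenvectors in `closure F` with different positive eigenvalues.

Proof.  `closure F` is preserved by `H_m` and `H_m⁻¹`.  RKO twice: on a subsequence
`r_m H_m x → ψ(x) b`, `s_m H_m⁻¹ x → φ(x) a`.  Both families are uniformly bounded operators
(pointwise convergent linear maps in finite dimension), so
`r_m s_m f = r_m H_m (s_m H_m⁻¹ f) → φ(f) ψ(a) b`, `φ(f) > 0`.  Let `c = lim r_m s_m` (it exists
since `f ≠ 0`), `c f = φ(f) ψ(a) b`.  If `c > 0` then `f` is a multiple of `b`: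
`ψ(a) ≥ 0`, `f = c⁻¹ φ(f) ψ(a) b`, the factor is nonzero because `f ≠ 0`, so `b ∈ F`, contradiction.
So `c = 0` and `ψ(a) = 0`.  Symmetrically `φ(b) = 0`.  `a + b ∈ F` (Strict), so
`ψ(b) = ψ(a + b) > 0`, `φ(a) = φ(a + b) > 0`.  CTR for `L_m = r_m H_m` and for
`L'_m = s_m H_m⁻¹`: eigenvectors `b_m → b`, `a_m → a` in `closure F`,
`H_m b_m = (κ_m / r_m) b_m`, `H_m a_m = (s_m / κ'_m) a_m`, `κ_m → ψ(b) > 0`, `κ'_m → φ(a) > 0`.
Independent for large `m` (`LinearIndependent` is open: `linearIndependent` of `![a, b]`,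
`isOpen_setOf_linearIndependent` / `LinearIndependent.eventually`).  The quotient of the eigenvalues
is `r_m s_m / (κ_m κ'_m) → 0`, so they are different for large `m`; both are positive. -/
def BipStmt : Prop :=
  ∀ (d : ℕ) (F : Set (V d)), PCone F → Strict F → ∀ (H : ℕ → (V d ≃ₗ[ℝ] V d)) (r s : ℕ → ℝ)
    (f a b : V d), (∀ m x, H m x ∈ F ↔ x ∈ F) → (∀ m, 0 < r m) → (∀ m, 0 < s m) → f ∈ F →
    a ∈ closure F → a ∉ F → b ∈ closure F → b ∉ F → LinearIndependent ℝ ![a, b] →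
    Tendsto (fun m => r m • H m f) atTop (𝓝 b) →
    Tendsto (fun m => s m • (H m).symm f) atTop (𝓝 a) →
    ∃ (m : ℕ) (a' b' : V d) (lam mu : ℝ), a' ∈ closure F ∧ b' ∈ closure F ∧
      LinearIndependent ℝ ![a', b'] ∧ 0 < lam ∧ lam < mu ∧ H m a' = lam • a' ∧ H m b' = mu • b'

/-! ## G.2  Faces -/

/-- **Row FCE** (elementary facts on open faces).

Proof.  Write `F = Face C x`.  (1) `ε = 1` (`zero_cl`).  (2) `y ∈ Face C x` means that `x, y` are
comparable up to constants; symmetric and transitive.  (3) `s • act g` preserves `closure C` in both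
directions (`CC.sact_cl_iff`).  (4) every element of the span is a combination of elements of `F`,
which are `≤ M x` and `≥ 0`.  (5) `y + δ x ∈ Face C x` for all `δ > 0` by (4), let `δ → 0`;
conversely `F ⊆ closure C` and the span is closed (finite dimension).
(6) if `z ≤ β y`, `z ∈ closure C` and `y ∈ closure F`, then `z ≤ β' x` by (4) (for `y`), hence
`x + z ∈ F` and `z = (x + z) - x` is in the span; then (5). -/
def FceStmt : Prop :=
  ∀ (n : ℕ) (C : Set (V n)), PCone C → ∀ x ∈ closure C, x ≠ 0 →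
    x ∈ Face C x ∧
    (∀ y ∈ Face C x, Face C y = Face C x) ∧
    (∀ Γ : Subgroup (GL (Fin n) ℝ), CC C Γ → ∀ g ∈ Γ, ∀ s : ℝ, 0 < s →
      ∀ y, (s • act g y ∈ Face C (s • act g x) ↔ y ∈ Face C x)) ∧
    (∀ v ∈ Submodule.span ℝ (Face C x), ∃ M : ℝ, 0 < M ∧ M • x - v ∈ closure C ∧
      M • x + v ∈ closure C) ∧
    (∀ y, y ∈ closure (Face C x) ↔ (y ∈ closure C ∧ y ∈ Submodule.span ℝ (Face C x))) ∧
    (∀ y ∈ closure (Face C x), ∀ z ∈ closure C, ∀ β : ℝ, β • y - z ∈ closure C →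
      z ∈ closure (Face C x))

/-- **Row FPC** (an open face is an open cone in its span, in coordinates).

Proof.  `U = span (Face C x)`, `finrank = d`: a linear equivalence `e : V d ≃ₗ U`
(`LinearEquiv.ofFinrankEq` or `Module.finBasis`), `ι = U.subtype ∘ e`.  `F0 = ι⁻¹(Face C x)`.
Open: let `ι z = y ∈ Face C x`, `y ≥ ε x`.  By FCE (4) for the vectors `ι e_i` there is `M` with
`-M x ≤ ι e_i ≤ M x`, so for `‖v‖ < δ`: `- δ d M x ≤ ι v ≤ δ d M x`, so
`y + ι v ≥ (ε - δ d M) x ≥ (ε/2) x` and `y + ι v ≤ M' x`: in `Face C x`.  Convex, smul: clear;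
nonempty: `x`; `0 ∉ F0` because `0 ≥ ε x` contradicts salient and `x ≠ 0`; salient: from the salient
property of `C`, as `ι` is injective and `ι (closure F0) ⊆ closure C`.  `z ∈ closure F0` iff
`ι z ∈ closure (Face C x)`: `ι` is a closed embedding, `→` continuity; `←`: `ι z + δ x ∈ Face C x`
(FCE (5), (4)), and `x = ι z0`. -/
def FpcStmt : Prop :=
  ∀ (n : ℕ) (C : Set (V n)), PCone C → ∀ x ∈ closure C, x ≠ 0 → ∀ d : ℕ,
    Module.finrank ℝ (Submodule.span ℝ (Face C x)) = d →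
    ∃ ι : V d →ₗ[ℝ] V n, Function.Injective ι ∧
      LinearMap.range ι = Submodule.span ℝ (Face C x) ∧ PCone (ι ⁻¹' Face C x) ∧
      ∀ z, z ∈ closure (ι ⁻¹' Face C x) ↔ ι z ∈ closure (Face C x)

/-- **Row UNQ** (the box is determined by its subspace).  Two boxes of the family with the same
subspace have the same face and the same apex rays.

Proof.  `x = w_0 + w_1`, `F = Face C x`, `W = BW w = BW w'`.  `sec` and `ind` for `w'`: every
`y ∈ closure C ∩ W` is uniquely `f'(y) + ∑ c_j(y) w'_j`, `f'(y) ∈ closure F'`, `c_j(y) ≥ 0`; the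
functions `c_j` are restrictions of linear functionals of `W`.  All parts are `≤ y`, so for
`y ∈ closure F` they lie in `closure F` (FCE (6)).
Step 1: `c_j(x) = 0` for all `j`.  Suppose `c_j(x) > 0`.  Then `w'_j ∈ closure F`.  Let
`N = {v ∈ span F : c_j(v) = 0}`, `finrank N ≥ d - 1 ≥ 2`.  For `v ∈ span F` put
`q(v) = v - c_j(v) w'_j`; `q` is the identity on `N`, maps `closure F` into `closure F ∩ N` (it is
the sum of the other parts), and `span F` is spanned by `F`, so `N = q(span F)` is spanned by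
`q(F) ⊆ closure F ∩ N`; so there are two linearly independent `y1, y2 ∈ closure F ∩ N`.  By `strict`
`y1 + y2 ∈ F`, so `y1 + y2 ≥ ε x` and `0 = c_j(y1 + y2) ≥ ε c_j(x) > 0` (`c_j ≥ 0` on
`closure C ∩ W`), contradiction.
So `x = f'(x) ∈ closure F'`.  If `x ∉ F'` then `extF` for `w'` shows that all `z` with
`0 ≤ z ≤ β x` are multiples of `x`, so `finrank (span F) ≤ 1`, contradiction.  So `x ∈ F'` and
FCE (2): `F = Face C x = F'`.
Step 2: `w_j = f' + ∑ c_k w'_k`, all parts `≤ w_j`, so by `ext` for `w` all parts are multiples of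
`w_j`.  If some `c_k > 0`: `c_k w'_k = e w_j`, `e > 0`, done.  Otherwise `w_j = f' ∈ closure F' =
closure F ⊆ span F`, contradicting `ind` for `w`. -/
def UnqStmt : Prop :=
  ∀ (n : ℕ) (C : Set (V n)) (Γ : Subgroup (GL (Fin n) ℝ)), CC C Γ → ∀ (K d : ℕ)
    (T : (Fin (K + 2) → V n) → Prop), BFam C Γ K d T → ∀ w w', T w → T w' →
    BW C w = BW C w' →
    EF C w = EF C w' ∧ ∀ j : Fin K, ∃ (k : Fin K) (c : ℝ), 0 < c ∧
      w j.succ.succ = c • w' k.succ.succ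

/-- **Row EVT** (eventually the same apexes).  If boxes `x_m → w` have the same subspace as `w`, then
eventually they have the same face and the apexes are positive multiples of those of `w`, in the
same order.

Proof.  UNQ: `x_m(j) = c_m w(k_m)`.  If `k_m = k` for infinitely many `m` with `k ≠ j`, then
`c_m = ‖x_m(j)‖ / ‖w(k)‖ → ‖w(j)‖ / ‖w(k)‖ > 0` along these `m` (vertices are nonzero, LIN) and
`w(j) = lim c_m w(k)`, contradicting the independence of `w` (LIN).  Finitely many pairs. -/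
def EvtStmt : Prop :=
  ∀ (n : ℕ) (C : Set (V n)) (Γ : Subgroup (GL (Fin n) ℝ)), CC C Γ → ∀ (K d : ℕ)
    (T : (Fin (K + 2) → V n) → Prop), BFam C Γ K d T → ∀ (x : ℕ → Fin (K + 2) → V n) w,
    (∀ m, T (x m)) → T w → (∀ i, Tendsto (fun m => x m i) atTop (𝓝 (w i))) →
    (∀ m, BW C (x m) = BW C w) →
    ∀ᶠ m in atTop, EF C (x m) = EF C w ∧ ∀ j : Fin K, ∃ c : ℝ, 0 < c ∧
      x m j.succ.succ = c • w j.succ.succ

/-- **Row EIG** (only two eigenrays).  `w` a box, `σ ∈ Γ` acts on `w 0`, `w 1` by `λ < μ`.  Then every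
eigenray of `σ` in `closure F` is one of these two.

Proof.  Let `e ∈ closure F`, `e ≠ 0`, `σ e = κ e`.  `κ > 0`: `σ` preserves `closure C`, `e ∈
closure C`, so `κ e ∈ closure C`, `κ ≥ 0` by salient, and `κ ≠ 0` (injective).
Suppose `e` is a multiple of neither `w_0` nor `w_1`.  Then `![e, w_1]`, `![e, w_0]` are
independent, and `e + w_1, e + w_0 ∈ F` (`strict`; `w_0, w_1 ∈ closure F` by FCE (6)).  So
`w_0 ≤ M (e + w_1)`, `w_1 ≤ M (e + w_0)`, `e ≤ M (w_0 + w_1)` (FCE (4)).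
(a) Apply `σ^{-k}` to `w_0 ≤ M (e + w_1)`: `w_0 ≤ M ((λ/κ)^k e + (λ/μ)^k w_1)`.  If `κ > λ` the right
side tends to `0` and `-w_0 ∈ closure C`, contradiction.  So `κ ≤ λ`.
(b) Apply `σ^k` to `w_1 ≤ M (e + w_0)`: `w_1 ≤ M ((κ/μ)^k e + (λ/μ)^k w_0)`.  `κ ≤ λ < μ`, so the
right side tends to `0`, contradiction.
So `e = c w_0` or `e = c w_1`, `c ≠ 0`, and `c > 0` by salient. -/
def EigStmt : Prop :=
  ∀ (n : ℕ) (C : Set (V n)) (Γ : Subgroup (GL (Fin n) ℝ)), CC C Γ → ∀ (K d : ℕ)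
    (T : (Fin (K + 2) → V n) → Prop), BFam C Γ K d T → ∀ w, T w → ∀ σ ∈ Γ, ∀ lam mu : ℝ,
    0 < lam → lam < mu → act σ (w 0) = lam • w 0 → act σ (w 1) = mu • w 1 →
    ∀ e ∈ closure (EF C w), e ≠ 0 → ∀ κ : ℝ, act σ e = κ • e →
      (∃ c : ℝ, 0 < c ∧ e = c • w 0) ∨ (∃ c : ℝ, 0 < c ∧ e = c • w 1)

/-! ## G.3  The periodic simplex -/

/-- **Row ZBX** (zooming at a box).  `w` a box, `c_m > 0` coefficient vectors.  On a subsequence the
zoomed boxes `x_m = (s_m act g_m (c_{φ m, i} w_i))_i` converge to a box `W` and (if the family is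
discrete) have the face of `W` and the apex rays of `W`; moreover their face is the image of `F`.

Proof.  `p_m = ∑ c_{m,i} w_i ∈ C ∩ Hull` (ELM (4), `PES.pos`).  ZOM: `G_m p_{φ m} → p ∈ C`,
`G_m = s_m act g_m`.  `x_m ∈ T`: `chord` for `y1 = c_{m,0} w_0`, `y2 = c_{m,1} w_1`, and the
coefficients `c_{m,j}` (`w_0, w_1 ∈ closure F` by FCE (6), not in `F`: if `w_0 ∈ F = Face C (w_0+w_1)`
then `w_0 ≥ ε w_1`, and `ext` makes `w_1` a multiple of `w_0`, contradicting LIN), then `act`; note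
`chd y1 y2 c w = fun i => c_{m,i} w_i` (`Fin.cases`).  The sum tends to `p`; LPS gives a
subsequence and an `IsPES` limit `W`; `closed`: `T W`.  `Dsc` and EVT give the rest
(EVT along a tail of the sequence).
`EF (x_m) = Face C (G_m (c_{m,0} w_0 + c_{m,1} w_1))`; `c_{m,0} w_0 + c_{m,1} w_1 ∈ Face C (w_0+w_1)`,
FCE (2), (3). -/
def ZbxStmt : Prop :=
  ∀ (n : ℕ) (C : Set (V n)) (Γ : Subgroup (GL (Fin n) ℝ)), CC C Γ → ∀ (K d : ℕ)
    (T : (Fin (K + 2) → V n) → Prop), BFam C Γ K d T → Dsc C K T → ∀ w, T w →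
    ∀ c : ℕ → Fin (K + 2) → ℝ, (∀ m i, 0 < c m i) →
    ∃ (φ : ℕ → ℕ) (g : ℕ → GL (Fin n) ℝ) (s : ℕ → ℝ) (W : Fin (K + 2) → V n), StrictMono φ ∧
      (∀ m, g m ∈ Γ) ∧ (∀ m, 0 < s m) ∧ T W ∧
      (∀ i, Tendsto (fun m => s m • act (g m) (c (φ m) i • w i)) atTop (𝓝 (W i))) ∧
      (∀ m, ∀ y, (s m • act (g m) y ∈ EF C W ↔ y ∈ EF C w)) ∧
      (∀ m, ∀ j : Fin K, ∃ a : ℝ, 0 < a ∧ s m • act (g m) (w j.succ.succ) = a • W j.succ.succ)

/-- **Row BPX** (a biproximal element).  A discrete nonempty family of boxes contains a box on which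
some `σ ∈ Γ` acts diagonally with different eigenvalues at `w 0` and `w 1`.

Proof.  ZBX with `c_m = (e^m, e^{-m}, 1, …, 1)`: `G_m = s_m act g_m`, `G_m (e^{φ m} w_0) → W_0`,
`G_m (e^{-φ m} w_1) → W_1`.  Put `e_m = e^{φ m}`.  Since `W_0, W_1` are independent (LIN), for a large
fixed `m0` the vectors `G_{m0} w_0` (a positive multiple of a vector near `W_0`) and `W_1` are
independent.  Let `H_m = G_{m0}⁻¹ G_m`: it maps `F` onto `F` (both `G_m` and `G_{m0}` map `F` onto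
`EF W`) and `w_j` to a positive multiple of `w_j`.  Let `f = w_0 + w_1 ∈ F`.
`e_m⁻¹ H_m f = G_{m0}⁻¹ (e_m⁻² (G_m e_m w_0) + G_m (e_m⁻¹ w_1)) → b := G_{m0}⁻¹ W_1`.
`u_m := G_m (e_m w_0) + G_m (e_m⁻¹ w_1) → W_0 + W_1`, `u_m ∈ EF W`, and `G_{m0} f ∈ EF W`.  There is
`M` with `M⁻¹ u_m ≤ G_{m0} f ≤ M u_m` for large `m` (FPC for `EF W`: in the coordinates `u_m`
converges in the open cone; `PCone.squeeze`; or: `-δ_m x ≤ u_m - (W_0 + W_1) ≤ δ_m x` with
`x = W_0 + W_1`, `δ_m → 0`, by FCE (4) and finite dimension).  Apply `e_m⁻¹ G_m⁻¹`: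
`e_m⁻¹ H_m⁻¹ f` lies between `M⁻¹ z_m` and `M z_m`, `z_m = w_0 + e_m⁻² w_1 → w_0`; so it is bounded
(`PCone.normal`), on a subsequence it converges to some `a`, `M⁻¹ w_0 ≤ a ≤ M w_0`; by `ext`
`a = c w_0`, `c > 0`.  `a, b` are independent (apply `G_{m0}`), `a, b ∈ closure F ∖ F`
(`W_1 ∈ closure (EF W) ∖ EF W`, see ZBX).
FPC: `ι : V d → V n`, `F0 = ι⁻¹ F` is a `PCone`, `Strict` by `strict`; `H_m` induces linear
equivalences of `V d` (it maps `span F` onto itself) preserving `F0`; `r_m = s_m = e_m⁻¹`; the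
convergences hold in `V d` (`ι` is a closed embedding).  BIP: some `H_m` has independent
eigenvectors `ι a', ι b' ∈ closure F` with eigenvalues `0 < λ < μ`.
`σ = g_{m0}⁻¹ g_m`, `H_m = (s_m / s_{m0}) act σ`.  The eigenvectors are not in `F`: if `ι b' ∈ F`,
then `ι a' ≤ M ι b'`, apply `H^{-k}`: `ι a' ≤ M (λ/μ)^k ι b' → 0`, contradiction; if `ι a' ∈ F`,
`ι b' ≤ M ι a'`, apply `H^k`: `ι b' ≤ M (λ/μ)^k ι a' → 0`.  `w' = chd (ι a') (ι b') 1 w ∈ T` by
`chord`. -/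
def BpxStmt : Prop :=
  ∀ (n : ℕ) (C : Set (V n)) (Γ : Subgroup (GL (Fin n) ℝ)), CC C Γ → ∀ (K d : ℕ)
    (T : (Fin (K + 2) → V n) → Prop), BFam C Γ K d T → Dsc C K T → (∃ w, T w) →
    ∃ w, T w ∧ ∃ σ ∈ Γ, ∃ lam mu : ℝ, 0 < lam ∧ lam < mu ∧ act σ (w 0) = lam • w 0 ∧
      act σ (w 1) = mu • w 1 ∧ ∀ j : Fin K, ∃ nu : ℝ, 0 < nu ∧
        act σ (w j.succ.succ) = nu • w j.succ.succ

/-- **Row FIX** (conjugates of `σ` by zooming elements form a finite set).  `σ ∈ Γ` acts on the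
vertices of the properly embedded simplex `w` by positive numbers, `p_m ∈ PosCone w`,
`G_m p_m → p ∈ C`.  Then `{g_m σ g_m⁻¹ : m}` is finite.

Proof.  Let `c0, c1 > 0` be the minimal and maximal eigenvalue: `c0 p_m ≤ σ p_m ≤ c1 p_m`, so
`Cmp C (c1/c0) (σ p_m) p_m`, hence (CMF: equivariance and scaling) with `τ_m = g_m σ g_m⁻¹`
`Cmp C (c1/c0) (act τ_m (G_m p_m)) (G_m p_m)`.  CMC: `Cmp C M (G_m p_m) p` for all large `m`, so
`Cmp C M' (act τ_m p) p` by CMF (transitivity), and PRP: `τ_m` is in a finite set for large `m`. -/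
def FixStmt : Prop :=
  ∀ (n : ℕ) (C : Set (V n)) (Γ : Subgroup (GL (Fin n) ℝ)), CC C Γ → ∀ (K : ℕ)
    (w : Fin K → V n), IsPES C Γ w → ∀ σ ∈ Γ, (∀ i, ∃ nu : ℝ, 0 < nu ∧ act σ (w i) = nu • w i) →
    ∀ (g : ℕ → GL (Fin n) ℝ) (s : ℕ → ℝ) (c : ℕ → Fin K → ℝ) (p : V n), (∀ m, g m ∈ Γ) →
      (∀ m, 0 < s m) → (∀ m i, 0 < c m i) → p ∈ C →
      Tendsto (fun m => s m • act (g m) (∑ i, c m i • w i)) atTop (𝓝 p) →
      (Set.range fun m => g m * σ * (g m)⁻¹).Finite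

/-- **Row SEL** (Selberg's centraliser trick).  Let `σ` be as in BPX.  For every `ℓ ≠ 0`, `∑ ℓ = 0`,
there is `γ ∈ Γ` acting diagonally on `w` with `∑ ℓ_i χ_i ≠ 0`.

Proof.  ZBX with `c_{m,i} = exp(m ℓ_i)`: `G_m = s_m act g_m`, `G_m (exp(φ(m) ℓ_i) w_i) → W_i`.
FIX: `g_m σ g_m⁻¹` takes finitely many values, so it is constant on a subsequence
(`Set.Finite` and `exists_subseq`/pigeonhole).  For `m0 < m` in this subsequence
`γ = g_{m0}⁻¹ g_m` commutes with `σ`, maps `F` onto `F` (ZBX), hence `closure F` onto itself, and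
`w_j` to positive multiples of `w_j` for the apexes.  `γ w_0 ∈ closure F`, `≠ 0`,
`σ γ w_0 = λ γ w_0`; EIG: `γ w_0 = c w_0` or `c w_1`, `c > 0`; the latter has eigenvalue `μ ≠ λ`.  So
`γ w_0 = c w_0`; in the same way `γ w_1 = c' w_1`.  So `γ w_i = exp(χ_i) w_i` for all `i`.  With
`y_{m,i} = G_m (exp(φ(m) ℓ_i) w_i) → W_i ≠ 0`: `act g_m w_i = exp(χ_i) act g_{m0} w_i` gives
`exp(χ_i) = (s_{m0}/s_m) exp(-(φ m - φ m0) ℓ_i) ‖y_{m,i}‖ / ‖y_{m0,i}‖`, so (as `∑ ℓ = 0`)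
`∑ ℓ_i χ_i = -(φ m - φ m0) ∑ ℓ_i² + ∑ ℓ_i (log ‖y_{m,i}‖ - log ‖y_{m0,i}‖)`; the last sum is bounded,
so this is `≠ 0` for `m` large. -/
def SelStmt : Prop :=
  ∀ (n : ℕ) (C : Set (V n)) (Γ : Subgroup (GL (Fin n) ℝ)), CC C Γ → ∀ (K d : ℕ)
    (T : (Fin (K + 2) → V n) → Prop), BFam C Γ K d T → Dsc C K T → ∀ w, T w →
    ∀ σ ∈ Γ, ∀ lam mu : ℝ, 0 < lam → lam < mu → act σ (w 0) = lam • w 0 →
    act σ (w 1) = mu • w 1 →
    (∀ j : Fin K, ∃ nu : ℝ, 0 < nu ∧ act σ (w j.succ.succ) = nu • w j.succ.succ) →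
    ∀ ℓ : Fin (K + 2) → ℝ, ℓ ≠ 0 → ∑ i, ℓ i = 0 →
      ∃ γ ∈ Γ, ∃ χ : Fin (K + 2) → ℝ, (∀ i, act γ (w i) = Real.exp (χ i) • w i) ∧
        ∑ i, ℓ i * χ i ≠ 0

/-- **Row MX1** (maximality from extreme vertices).

Proof.  As row MXI of PFS (file Helper20_PFS/Mxi.lean), which uses `Star` only for `I = {i}`:
`PosCone w ⊆ PosCone w'`.  `w'` is independent (LIN), so `{∑ c w' : c ≥ 0}` is closed and
`w_i = ∑_j c_{ij} w'_j`, `c_{ij} ≥ 0`; some `c_{ij} > 0` and `c_{ij} w'_j ≤ w_i`, so it is a positive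
multiple of `w_i`.  So `w_i = a_i w'_{σ i}`; `σ` injective; if not surjective `∑ w_i ∉ C` by `bd` for
`w'`, contradiction; so the two open cones are equal. -/
def Mx1Stmt : Prop :=
  ∀ (n : ℕ) (C : Set (V n)), PCone C → ∀ K : ℕ, 2 ≤ K → ∀ w : Fin K → V n, PES C w →
    (∀ i, ∀ z ∈ closure C, ∀ β : ℝ, β • w i - z ∈ closure C → ∃ c : ℝ, 0 ≤ c ∧ z = c • w i) →
    ∀ (m : ℕ) (w' : Fin m → V n), PES C w' → PosCone w ⊆ PosCone w' → PosCone w' ⊆ PosCone w

/-- the conclusion of S14139 for the simplex `v` -/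
def Concl {n : ℕ} (C : Set (V n)) (Γ : Subgroup (GL (Fin n) ℝ)) (k : ℕ)
    (v : Fin (k + 1) → V n) : Prop :=
  LinearIndependent ℝ v ∧ PosCone v ⊆ C ∧ closure (PosCone v) ∩ C ⊆ PosCone v ∧
    (∀ (m : ℕ) (w : Fin (m + 1) → V n), LinearIndependent ℝ w → PosCone w ⊆ C →
      closure (PosCone w) ∩ C ⊆ PosCone w → PosCone v ⊆ PosCone w → PosCone w ⊆ PosCone v) ∧
    ∃ A : Subgroup (GL (Fin n) ℝ), A ≤ Γ ∧ Nonempty (↥A ≃* Multiplicative (Fin k → ℤ)) ∧
      ∀ a ∈ A, ∀ y ∈ PosCone v, act a y ∈ PosCone v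

/-- **Row FNG** (assembly of section G).

Proof.  BPX, SEL, then CHI (with `X = {χ : ∃ γ ∈ Γ, ∀ i, act γ (w i) = exp(χ_i) w_i}`) and ABE with
`k = K + 1`; LIN, FRZ for the first three items; MX1 (with `ext`) and FRZ for the fourth. -/
def FngStmt : Prop :=
  ∀ (n : ℕ) (C : Set (V n)) (Γ : Subgroup (GL (Fin n) ℝ)), CC C Γ → ∀ (K d : ℕ)
    (T : (Fin (K + 2) → V n) → Prop), BFam C Γ K d T → Dsc C K T → (∃ w, T w) →
    ∃ w : Fin (K + 1 + 1) → V n, T w ∧ Concl C Γ (K + 1) w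

end Pool.Agent.PFB
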