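import Pool.Agent.PFB.StmtsG

/-!
# PFB squad (MP_e54c4c_gt, product faces), SECTION B: boxes exist and form a closed family

Setting (`Top`): `K + 2` is the maximal number of vertices of a properly embedded simplex of the core
(`1 ≤ K`), `d ≥ 3` is the maximal dimension (of the span) of the open face of an edge of such a top
simplex, and (H): for every top simplex `w` whose first edge has a face of dimension `d`, the faces
of the facets of `w` are contained in the subspace `BW C w`.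
-/

set_option autoImplicit false

open Matrix Filter Topology

namespace Pool.Agent.PFB

open Pool.Agent.PFS

/-- dimension of the span of the face of the first edge -/
noncomputable abbrev edim {n K : ℕ} (C : Set (V n)) (w : Fin (K + 2) → V n) : ℕ :=
  Module.finrank ℝ (Submodule.span ℝ (EF C w))

/-- the hypotheses of the product face theorem -/
structure Top {n : ℕ} (C : Set (V n)) (Γ : Subgroup (GL (Fin n) ℝ)) (K d : ℕ) : Prop
    extends CC C Γ where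
  one : 1 ≤ K
  three : 3 ≤ d
  max : MaxCard C Γ (K + 2)
  dmax : ∀ w : Fin (K + 2) → V n, IsPES C Γ w → edim C w ≤ d
  hyp : ∀ w : Fin (K + 2) → V n, IsPES C Γ w → edim C w = d → ∀ l : Fin (K + 2),
    ∀ y ∈ Face C (∑ m ∈ Finset.univ.erase l, w m), y ∈ BW C w

/-- boxes -/
structure Box {n : ℕ} (C : Set (V n)) (Γ : Subgroup (GL (Fin n) ℝ)) (K d : ℕ)
    (w : Fin (K + 2) → V n) : Prop where
  pes : IsPES C Γ w
  dim : edim C w = d
  pe : ∀ g ∈ closure (EF C w), g ∉ EF C w → g + ∑ j : Fin K, w j.succ.succ ∉ C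

/-! ## B.1  Planes and extreme rays -/

/-- **Row PLN** (extreme rays of a plane section).

Proof.  `ε0 = max {ε ≥ 0 : u - ε v ∈ closure C}`, `ε1 = max {ε ≥ 0 : v - ε u ∈ closure C}` (closed
sets containing `0`, bounded by `PCone.normal`).  `e1 = u - ε0 v`, `e2 = v - ε1 u`.
`ε0 ε1 < 1`: `u ≥ ε0 v ≥ ε0 ε1 u` gives `(1 - ε0 ε1) u ∈ closure C`, so `ε0 ε1 ≤ 1` (salient,
`u ≠ 0`); if `= 1` then `u ≥ ε0 v ≥ u`, so `u = ε0 v` by salient, contradicting independence.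
`u = (e1 + ε0 e2) / (1 - ε0 ε1)`, `v = (e2 + ε1 e1) / (1 - ε0 ε1)`.
`e1 - η e2 = (1 + η ε1) (u - ((ε0 + η) / (1 + η ε1)) v)` and `(ε0 + η) / (1 + η ε1) > ε0` because
`ε0 ε1 < 1`, so it is not in `closure C`.  Symmetric for `e2 - η e1`.  Independence: clear from the
formulas (determinant `1 - ε0 ε1 ≠ 0`). -/
def PlnStmt : Prop :=
  ∀ (n : ℕ) (C : Set (V n)), PCone C → ∀ u ∈ closure C, ∀ v ∈ closure C,
    LinearIndependent ℝ ![u, v] →
    ∃ (e1 e2 : V n) (a b a' b' : ℝ), e1 ∈ closure C ∧ e2 ∈ closure C ∧ u - e1 ∈ closure C ∧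
      v - e2 ∈ closure C ∧ LinearIndependent ℝ ![e1, e2] ∧ 0 < a ∧ 0 ≤ b ∧ 0 ≤ a' ∧ 0 < b' ∧
      u = a • e1 + b • e2 ∧ v = a' • e1 + b' • e2 ∧
      (∀ η : ℝ, 0 < η → e1 - η • e2 ∉ closure C) ∧ (∀ η : ℝ, 0 < η → e2 - η • e1 ∉ closure C)

/-- **Row ZEX** (zoom with two extreme vectors).  `e1, e2 ∈ LamC`, no `e1 - η e2`, `e2 - η e1` in
`closure C` (`η > 0`), `b : Fin q → Hull`, `0 < q`, `e1 + e2 + ∑ b ∈ C` and
`e1 + e2 + ∑_{l ≠ j} b_l ∉ C` for all `j`.  Then there is an `IsPES` with `2 + q` vertices.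

Proof.  As row FZM of PFS (Helper60_PFS or Helper37_PFS/FZM.lean): `t_m = 1/(m+1)`,
`p_m = e1 + e2 + t_m ∑ b ∈ C ∩ Hull`; zoom `G_m p_{φ m} → p ∈ C`; the family
`(G_m e1, G_m e2, t G_m b_j)` converges on a subsequence (LIM).  Omit condition: (omit `b_j`) the sum
would give `e1 + e2 + t ∑_{l≠j} b_l ∈ C` for large `m`, so `e1 + e2 + ∑_{l≠j} b_l ∈ C`,
contradiction.  (omit `e1`) if the limit of the omitted sum is in `C`, then for some `η > 0` and all
large `m` `e2 + t_m ∑ b - η e1 ∈ C`, so `e2 - η e1 ∈ closure C`, contradiction.  (omit `e2`) same.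
Index type `Fin 2 ⊕ Fin q`, reindex. -/
def ZexStmt : Prop :=
  ∀ (n : ℕ) (C : Set (V n)) (Γ : Subgroup (GL (Fin n) ℝ)), CC C Γ →
    ∀ (q : ℕ) (e1 e2 : V n) (b : Fin q → V n), e1 ∈ LamC C Γ → e2 ∈ LamC C Γ →
      (∀ η : ℝ, 0 < η → e1 - η • e2 ∉ closure C) → (∀ η : ℝ, 0 < η → e2 - η • e1 ∉ closure C) →
      0 < q → (∀ j, b j ∈ Hull C Γ) → e1 + e2 + ∑ j, b j ∈ C →
      (∀ j, e1 + e2 + ∑ l ∈ Finset.univ.erase j, b l ∉ C) →
      ∃ w : Fin (2 + q) → V n, IsPES C Γ w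

/-- **Row EXT** (vertices of top simplices are extreme).  Stated for a simplex with `K` vertices, `K`
maximal, `2 ≤ K`.

Proof.  Let `z ∈ closure C`, `z ≤ β w_i`, `z` not a multiple of `w_i` (if it is a multiple,
`z = c w_i`, then `c ≥ 0` by salient, done).  So `![w_i, z]` is independent.  PLN:
`e1, e2`, `w_i = a e1 + b e2`, `z = a' e1 + b' e2`, `a > 0`, `b' > 0`.  `b > 0`: if `b = 0` then
`w_i = a e1` and `β w_i - z = (β a - a') e1 - b' e2 ∈ closure C`; with `η = b'/(|β a - a'| + 1)`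
adding a nonnegative multiple of `e1` and scaling gives `e1 - η' e2 ∈ closure C` for some `η' > 0`,
contradiction.  Rescale: `e1' = a e1`, `e2' = b e2`: `w_i = e1' + e2'` (the properties
`e1' - η e2' ∉ closure C` persist).  `e1', e2' ≤ w_i`, nonzero, so in `LamC` (FLM).  ZEX with
`b` = the family `(w_j)_{j ≠ i}` (`q = K - 1 ≥ 1`, `w_i + ∑_{j≠i} w_j ∈ C`, omitting one is not in `C`
by `bd`) gives an `IsPES` with `K + 1` vertices, contradicting `MaxCard`. -/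
def ExtStmt : Prop :=
  ∀ (n : ℕ) (C : Set (V n)) (Γ : Subgroup (GL (Fin n) ℝ)), CC C Γ → ∀ K : ℕ, 2 ≤ K →
    MaxCard C Γ K → ∀ w : Fin K → V n, IsPES C Γ w →
    ∀ i, ∀ z ∈ closure C, ∀ β : ℝ, β • w i - z ∈ closure C → ∃ c : ℝ, 0 ≤ c ∧ z = c • w i

/-- **Row FMX** (zoom with two speeds).  `w` top simplex, `x = ∑_{m≠l} w_m ≤ z`, `z ∈ Hull`,
`z ∉ C`.  Then `z ∈ Face C x`.

Proof.  Suppose not: then `x - ε z ∉ closure C` for all `ε > 0` (the other inequality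
`z - ε x ∈ closure C` holds for `ε ≤ 1`).  Let `c ∈ C ∩ Hull`.  For every `m` choose
`η_m = t_m = 1/(m+1)` and `s_m ∈ (0, t_m²]` so small that `x + s_m c - η_m t_m z ∉ closure C`
(closed complement).  `p_m = x + t_m z + s_m c ∈ C ∩ Hull`.  Zoom: `G_m p_{φ m} → p ∈ C`.  Family:
`(G_m w_j)_{j ≠ l}`, `t_m G_m z`, `s_m G_m c` (`K + 1` members, `K ≥ 2`), converging on a subsequence
by LIM.  Omit conditions: (omit `c`) `x + t_m z ≤ (1 + t_m) z ∉ C`.  (omit `z`) if the limit of the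
omitted sum is in `C`, there is `η > 0` with `x + s_m c - η t_m z ∈ C` for all large `m`; for
`η_m ≤ η` adding `(η - η_m) t_m z` gives `x + s_m c - η_m t_m z ∈ closure C`, contradiction.
(omit `w_j`) if in `C`: `x - w_j + t_m z + s_m c - η w_j ∈ C`, in the limit
`∑_{i≠l,j} w_i - η w_j ∈ closure C`; then `∑_{all} w ≤ (1 + 1/η) ∑_{i≠j} w_i`, so
`∑_{i≠j} w_i ∈ C`, contradiction to `bd`.  So there is an `IsPES` with `K + 1` vertices,
contradiction.  (The landed row C22, Helper37_PFS/C22.lean, is the same zoom.) -/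
def FmxStmt : Prop :=
  ∀ (n : ℕ) (C : Set (V n)) (Γ : Subgroup (GL (Fin n) ℝ)), CC C Γ → ∀ K : ℕ, 2 ≤ K →
    MaxCard C Γ K → ∀ w : Fin K → V n, IsPES C Γ w → ∀ (l : Fin K) (z : V n), z ∈ Hull C Γ →
    z ∉ C → z - ∑ m ∈ Finset.univ.erase l, w m ∈ closure C →
    z ∈ Face C (∑ m ∈ Finset.univ.erase l, w m)

/-! ## B.2  Structure of a box -/

/-- **Row IND** (independence of the apexes from the face of the edge).

Proof.  Let `x = w_0 + w_1`, `f ∈ span EF`, `f + ∑ c_j w_j = 0`.  If `c = 0` then `f = 0`.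
Otherwise, changing signs, `P = {j : c_j > 0}` is nonempty.  FCE (4): `-f ≤ M x`.
`∑_P c_j w_j = -f + ∑_{c_j<0} |c_j| w_j ≤ M x + ∑_{j∉P} |c_j| w_j`.  Hence for `β` with
`β c_j ≥ 1` on `P`: `∑_{all} w ≤ x + β ∑_P c_j w_j + ∑_{j∉P} w_j ≤ M' (x + ∑_{j∉P} w_j) ∉ C`
(`bd`, as `P` is nonempty), contradiction with `∑ w ∈ C`. -/
def IndStmt : Prop :=
  ∀ (n : ℕ) (C : Set (V n)), PCone C → ∀ (K : ℕ) (w : Fin (K + 2) → V n), PES C w →
    ∀ f ∈ Submodule.span ℝ (EF C w), ∀ c : Fin K → ℝ,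
      f + ∑ j, c j • w j.succ.succ = 0 → f = 0 ∧ c = 0

/-- **Row SEC** (the section by the subspace of a box is a product).

Proof.  `x ∈ BW`: `x = f + ∑ c_j w_j`, `f ∈ span EF` (`Submodule.mem_sup`, `mem_span_range_iff_exists_fun`).
Let `u = w_0 + w_1`, `q = u + ∑ w_j ∈ C`.  For `t ∈ [0, 1]` let `f_t = (1-t) u + t f`,
`c_{t,j} = (1-t) + t c_j`; `x_t = f_t + ∑ c_{t,j} w_j = (1-t) q + t x ∈ C` for `t < 1`.
`A = {t ∈ [0,1] : f_t ∈ closure EF, all c_{t,j} ≥ 0}` is closed and contains `0`; let `t*` be its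
supremum (it is in `A`, and `A` is convex).  If `t* = 1` we are done.  Suppose `t* < 1`.
If some `c_{t*,j} = 0`: `f_{t*} ≤ M u` (FCE (4)), so `x_{t*} ≤ M' ∑_{m ≠ j.succ.succ} w_m ∉ C`,
contradiction.  Otherwise all `c_{t*,j} > 0`.  If `f_{t*} ∈ EF`, then `f_t ∈ closure EF` for `t`
slightly larger (`f_{t*} ≥ ε u`, `f_t - f_{t*} = (t - t*)(f - u) ≥ -ε u` by FCE (4); FCE (5)),
contradiction to the choice of `t*`.  So `f_{t*} ∈ closure EF ∖ EF` and
`x_{t*} ≤ M' (f_{t*} + ∑ w_j) ∉ C` by `pe` (`M' ≥ 1`, `M' ≥ c_{t*,j}`), contradiction. -/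
def SecStmt : Prop :=
  ∀ (n : ℕ) (C : Set (V n)) (Γ : Subgroup (GL (Fin n) ℝ)), CC C Γ → ∀ (K d : ℕ)
    (w : Fin (K + 2) → V n), 1 ≤ K → Box C Γ K d w → ∀ x ∈ closure C, x ∈ BW C w →
    ∃ f ∈ closure (EF C w), ∃ c : Fin K → ℝ, (∀ j, 0 ≤ c j) ∧ x = f + ∑ j, c j • w j.succ.succ

/-- **Row STC** (the face is strictly convex; boundary rays are extreme).

Proof.  `u = w_0 + w_1`.  (1) `y1, y2 ∈ closure EF` independent; suppose `y1 + y2 ∉ EF`.  PLN:
`e1, e2`, `e1 ≤ y1`, `e2 ≤ y2`, so in `closure EF` (FCE (6)) and, being nonzero and `≤ M u`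
(FCE (4)), `u ∈ LamC` (CLO; `u ∉ C` as `1 ≤ K`), in `LamC` (FLM).  `y1 + y2 = (a + a') e1 + (b + b') e2`
with both coefficients positive, so `y1 + y2` and `e1 + e2` are comparable and `e1 + e2 ∉ EF`
(FCE (2)).  ZEX with `b = (u, w_j (j : Fin K))` (`q = K + 1`): the sum is `∈ C`;
omit `w_j`: `e1 + e2 + u + ∑_{l≠j} w_l ≤ M (u + ∑_{l≠j} w_l) ∉ C`; omit `u`:
`e1 + e2 + ∑ w_j ∉ C` by `pe`.  An `IsPES` with `K + 3` vertices contradicts `max`.
(2) `y ∈ closure EF`, `y ∉ EF`, `0 ≤ z ≤ β y`.  If `y = 0`: `z = 0`.  If `z` is not a multiple of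
`y`: independent, `z ∈ closure EF` (FCE (6)), so `y + z ∈ EF` by (1), and
`y ≥ (1 + |β|)⁻¹ (y + z)`, so `y ∈ EF`, contradiction.  If `z = c y` then `c ≥ 0` by salient. -/
def StcStmt : Prop :=
  ∀ (n : ℕ) (C : Set (V n)) (Γ : Subgroup (GL (Fin n) ℝ)) (K d : ℕ), Top C Γ K d →
    ∀ w, Box C Γ K d w →
    (∀ y1 ∈ closure (EF C w), ∀ y2 ∈ closure (EF C w), LinearIndependent ℝ ![y1, y2] →
      y1 + y2 ∈ EF C w) ∧
    (∀ y ∈ closure (EF C w), y ∉ EF C w → ∀ z ∈ closure C, ∀ β : ℝ, β • y - z ∈ closure C →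
      ∃ c : ℝ, 0 ≤ c ∧ z = c • y)

/-- **Row EXI** (existence of boxes).

Proof.  Let `w` be a top simplex with `edim w = d`, `u = w_0 + w_1`, `t_m = 1/(m+1)`,
`p_m = u + t_m ∑ w_j`.  ZOM: `G_m p_{φ m} → p ∈ C`; the families `x_m = (G_m w_0, G_m w_1, t G_m w_j)`
are `IsPES` (ELM) with sum `→ p`; LPS: on a subsequence `x_m → W`, `IsPES`.
Let `v_1, …, v_d` be a basis of `span EF` with `-M u ≤ v_i ≤ M u` (FCE (4)).  `G_m v_i` is bounded
(`-M G_m u ≤ G_m v_i ≤ M G_m u`, `PCone.normal`), on a further subsequence `G_m v_i → v'_i`,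
`-M U ≤ v'_i ≤ M U`, `U = W_0 + W_1`; so `v'_i ∈ span (Face C U)` (`v'_i + 2 M U ∈ Face C U`).
Define `Φ(∑ a_i v_i) = ∑ a_i v'_i = lim G_m (∑ a_i v_i)`.  Injective: if `G_m v → 0` then for every
`ε > 0` eventually `-ε G_m p_{φ m} ≤ G_m v ≤ ε G_m p_{φ m}` (`p ∈ C` open), so
`-ε p_{φ m} ≤ v ≤ ε p_{φ m}`, and `m → ∞`: `-ε u ≤ v ≤ ε u` for every `ε > 0`, `v = 0`.
So `edim W ≥ d`, hence `= d` (`dmax`) and `Φ : span EF(w) → span EF(W)` is bijective.
`pe`: let `g ∈ closure (EF W)`, `g ∉ EF W`, `g = Φ(v)`, and suppose `g + ∑ W_j ∈ C`.  Then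
`g - η U + ∑ W_j ∈ C` for some `η > 0`, so for large `m` `v - η u + t_m ∑ w_j ∈ C`, so
`v - η u ∈ closure C`; apply `G_m` and pass to the limit: `g ≥ η U`.  With `g ≤ M U` (FCE (4)) this
gives `g ∈ EF W`, contradiction. -/
def ExiStmt : Prop :=
  ∀ (n : ℕ) (C : Set (V n)) (Γ : Subgroup (GL (Fin n) ℝ)) (K d : ℕ), Top C Γ K d →
    (∃ w : Fin (K + 2) → V n, IsPES C Γ w ∧ edim C w = d) → ∃ w, Box C Γ K d w

/-- **Row ORB** (orthonormal bases).

Proof.  Gram-Schmidt for the dot product: transport `U` to `EuclideanSpace ℝ (Fin n)`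
(`WithLp.linearEquiv` / `EuclideanSpace.equiv`), take `stdOrthonormalBasis`; the inner product is the
dot product.  Independence of orthonormal families: if `∑ a_i v_i = 0` take the dot product with
`v_j`.  Entries are bounded: `|v_i k| ≤ 1` since `∑_k (v_i k)² = 1`. -/
def OrbStmt : Prop :=
  ∀ (n d : ℕ) (U : Submodule ℝ (V n)), Module.finrank ℝ U = d →
    ∃ v : Fin d → V n, (∀ i, v i ∈ U) ∧ (∀ i j, v i ⬝ᵥ v j = if i = j then 1 else 0) ∧
      (∀ i k, |v i k| ≤ 1) ∧ U = Submodule.span ℝ (Set.range v)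

/-- **Row LBX** (limits of boxes).  Let `x_m` be boxes converging to an `IsPES` `w`.  Then `w` is a
box; on a subsequence there are bases `v_m` of `span EF (x_m)` converging to a basis `v` of
`span EF w`.

Proof.  ORB: orthonormal bases `v_m` of `span EF (x_m)`; on a subsequence `v_m → v`, orthonormal,
so independent.  Let `p_m = ∑ x_m → p = ∑ w ∈ C`, `u_m = x_{m,0} + x_{m,1} → U = w_0 + w_1`.
There is `M` with `-M p_m ≤ v_{m,i} ≤ M p_m` for all large `m` (`p ∈ C` open, `v_m` bounded).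
`M p_m ± v_{m,i} = (M u_m ± v_{m,i}) + M ∑ x_{m,j}` is in `closure C ∩ BW (x_m)`, so by SEC and IND
(uniqueness of the decomposition) `M u_m ± v_{m,i} ∈ closure (EF x_m) ⊆ closure C`.  Limit:
`-M U ≤ v_i ≤ M U`, so `v_i ∈ span EF w` (`v_i + 2 M U ∈ EF w`).  So `edim w ≥ d`, `= d` by `dmax`,
and `v` is a basis of `span EF w`.
`pe`: `g = ∑ a_i v_i ∈ closure (EF w)`, `g ∉ EF w`, suppose `g + ∑ w_j ∈ C`.  For a small `η > 0`
`g - η U + ∑ w_j ∈ C`; `g_m = ∑ a_i v_{m,i} → g`, so for large `m`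
`(g_m - η u_m) + ∑ x_{m,j} ∈ C ∩ BW (x_m)`, so `g_m - η u_m ∈ closure (EF x_m) ⊆ closure C` (SEC,
IND), in the limit `g ≥ η U`, and `g ≤ M' U` (FCE (4)), so `g ∈ EF w`, contradiction. -/
def LbxStmt : Prop :=
  ∀ (n : ℕ) (C : Set (V n)) (Γ : Subgroup (GL (Fin n) ℝ)) (K d : ℕ), Top C Γ K d →
    ∀ (x : ℕ → Fin (K + 2) → V n) (w : Fin (K + 2) → V n), (∀ m, Box C Γ K d (x m)) →
    (∀ i, Tendsto (fun m => x m i) atTop (𝓝 (w i))) → IsPES C Γ w →
    Box C Γ K d w ∧ ∃ (φ : ℕ → ℕ) (v : ℕ → Fin d → V n) (v0 : Fin d → V n), StrictMono φ ∧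
      (∀ m i, v m i ∈ Submodule.span ℝ (EF C (x (φ m)))) ∧
      (∀ i, Tendsto (fun m => v m i) atTop (𝓝 (v0 i))) ∧ LinearIndependent ℝ v0 ∧
      Submodule.span ℝ (Set.range v0) = Submodule.span ℝ (EF C w)

/-- **Row LBW** (limits of the subspaces).  If boxes `x_m` converge to the box `w`, then every
`p ∈ BW w` is a limit of points `p_m ∈ BW (x_m)`, and a limit of points `p_m ∈ BW (x_m)` is in
`BW w`.

Proof.  It is enough to prove both for a subsequence of every subsequence: (first claim) suppose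
`p ∈ BW w`, and let `D_m` be the distance from `p` to `BW (x_m)`; every subsequence has a
subsequence along which `D_m → 0` by LBX (`p = ∑ a_i v0_i + ∑ c_j w_j`, `p_m = ∑ a_i v_{m,i} +
∑ c_j x_{m,j}`), so `D_m → 0`, and nearest points exist (finite dimension; or points with distance
`≤ D_m + 1/(m+1)`).  (second claim) along the subsequence of LBX write
`p_m = ∑ a_{m,i} v_{m,i} + ∑ c_{m,j} x_{m,j}`; the vectors `(v_m, x_{m,j})` converge to the
independent family `(v0, w_j)` (IND for `w`), so the coefficients are bounded (if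
`|(a_m, c_m)| → ∞`, divide and get a nontrivial relation in the limit); on a subsequence they
converge, `p = ∑ a_i v0_i + ∑ c_j w_j ∈ BW w`. -/
def LbwStmt : Prop :=
  ∀ (n : ℕ) (C : Set (V n)) (Γ : Subgroup (GL (Fin n) ℝ)) (K d : ℕ), Top C Γ K d →
    ∀ (x : ℕ → Fin (K + 2) → V n) (w : Fin (K + 2) → V n), (∀ m, Box C Γ K d (x m)) →
    Box C Γ K d w → (∀ i, Tendsto (fun m => x m i) atTop (𝓝 (w i))) →
    (∀ p ∈ BW C w, ∃ q : ℕ → V n, (∀ m, q m ∈ BW C (x m)) ∧ Tendsto q atTop (𝓝 p)) ∧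
    (∀ (q : ℕ → V n) (p : V n), (∃ᶠ m in atTop, q m ∈ BW C (x m)) → Tendsto q atTop (𝓝 p) →
      p ∈ BW C w)

/-- **Row CHO** (chords).  Other chords of the face of the edge give boxes with the same face and
the same subspace.

Proof.  `w' = chd y1 y2 c w`, `u = w_0 + w_1`.  `y1 + y2 ∈ EF w` (STC), so `EF w' = EF w` (FCE (2)).
The vertices are in `closure C`; CRT: total sum `(y1 + y2) + ∑ c_j w_j ≥ ε (u + ∑ w_j) ∈ C`;
omit `y1`: `y2 + ∑ c_j w_j ≤ M (y2 + ∑ w_j) ∉ C` by `pe`; omit `y2` same; omit `c_j w_j`: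
`≤ M (u + ∑_{l≠j} w_l) ∉ C`.  `y1, y2 ≤ M u` (FCE (4)), `u ∈ LamC` (CLO), nonzero, so in `LamC` (FLM);
`c_j w_j ∈ LamC`.  `pe` for `w'`: `g + ∑ c_j w_j ≤ M (g + ∑ w_j) ∉ C`.  `BW w' = BW w`: the spans of
`c_j w_j` and `w_j` agree. -/
def ChoStmt : Prop :=
  ∀ (n : ℕ) (C : Set (V n)) (Γ : Subgroup (GL (Fin n) ℝ)) (K d : ℕ), Top C Γ K d →
    ∀ w, Box C Γ K d w → ∀ y1 ∈ closure (EF C w), y1 ∉ EF C w → ∀ y2 ∈ closure (EF C w),
    y2 ∉ EF C w → LinearIndependent ℝ ![y1, y2] → ∀ c : Fin K → ℝ, (∀ j, 0 < c j) →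
    Box C Γ K d (chd y1 y2 c w) ∧ EF C (chd y1 y2 c w) = EF C w ∧
      BW C (chd y1 y2 c w) = BW C w

/-- **Row BAC** (invariance).

Proof.  ELM (2) for `pes`.  FCE (3): `EF (G w) = G (EF w)`, so the span is the image under the
linear automorphism `G` (`Submodule.map`), the dimension is `d`, `closure` commutes with the
homeomorphism `G`, `BW (G w) = G (BW w)`, and `pe` is transported by `CC.sact_mem_iff`. -/
def BacStmt : Prop :=
  ∀ (n : ℕ) (C : Set (V n)) (Γ : Subgroup (GL (Fin n) ℝ)), CC C Γ → ∀ (K d : ℕ) (w : Fin (K + 2) → V n),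
    1 ≤ K → Box C Γ K d w → ∀ g ∈ Γ, ∀ s : ℝ, 0 < s →
    Box C Γ K d (fun i => s • act g (w i)) ∧
    (∀ y, (s • act g y ∈ EF C (fun i => s • act g (w i)) ↔ y ∈ EF C w)) ∧
    (∀ y, (s • act g y ∈ BW C (fun i => s • act g (w i)) ↔ y ∈ BW C w))

/-- **Row FUL** (fullness, from hypothesis (H)).  Faces of boundary points of the section stay in the
subspace.

Proof.  SEC: `q = f + ∑ c_j w_j`, `f ∈ closure EF`, `c ≥ 0`; `u = w_0 + w_1`.
Case A: some `c_l = 0`.  `q ≤ M x`, `x = ∑_{m ≠ l.succ.succ} w_m` (FCE (4)), `z ≤ M' x`, so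
`x + z ∈ Face C x` and `x ∈ Face C x`, both in `BW w` by `hyp`, so `z ∈ BW w`.
Case B: all `c_j > 0`.  `f ∉ EF` (otherwise `q ≥ ε ∑ w ∈ C`).  If `f = 0`: `q ≤ M ∑_{m≠1} w_m`, as in
case A with the facet opposite to `1`.  If `f ≠ 0`: `w_0, w_1 ∈ closure EF ∖ EF` are independent, so
one of them, `g'`, is independent of `f`; CHO: `w' = chd f g' 1 w` is a box with `BW w' = BW w`,
`edim w' = d`; `q ≤ M ∑_{m≠1} w'_m`; as in case A for `w'` and the facet opposite to `1`. -/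
def FulStmt : Prop :=
  ∀ (n : ℕ) (C : Set (V n)) (Γ : Subgroup (GL (Fin n) ℝ)) (K d : ℕ), Top C Γ K d →
    ∀ w, Box C Γ K d w → ∀ q ∈ closure C, q ∈ BW C w → q ∉ C → ∀ z ∈ closure C, ∀ β : ℝ,
    β • q - z ∈ closure C → z ∈ BW C w

/-- **Row BFM** (assembly of section B): boxes form a closed invariant family.

Proof.  `three`: Top.  `pes`, `dim`: Box.  `strict`, `extF`: STC.  `sec`: SEC.  `ind`: IND.
`ext`: EXT with `K + 2` vertices.  `act`: BAC.  `chord`: CHO.  `closed`: LBX. -/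
def BfmStmt : Prop :=
  ∀ (n : ℕ) (C : Set (V n)) (Γ : Subgroup (GL (Fin n) ℝ)) (K d : ℕ), Top C Γ K d →
    BFam C Γ K d (Box C Γ K d)

end Pool.Agent.PFB
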